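import Pool.Agent.Q257.PH.Fin

/-!
# The diagonal limit of products of projected Haar unitaries

Let `S_1, S_2, …` be independent Haar distributed unitary `N × N` matrices, `P` an orthogonal
projection of rank `N - 1` and `B_L = (P S_L) ⋯ (P S_1)`. If `L_N / N → τ > 0`, the empirical
distribution of the squared singular values of `B_{L_N}` converges in probability to the measure
`μ_τ` on `[0, 1]` with moments `e ^ (-p τ) ∑_{k < p} (1 - k / p) (p τ) ^ k / k!`.

Method: `A_L = B_L B_Lᴴ` is a Markov chain of matrices, and in each step the traces of the powers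
change by an explicit polynomial in the numbers `v* A_L ^ k v`, where `v` is a uniform unit vector
independent of `A_L`. These numbers are concentrated around the normalized traces, so the moments
follow, up to small errors, the Euler scheme with step `1 / N` of an autonomous ordinary
differential equation, which by identities of Abel type is solved by the moments of `μ_τ`.
-/

set_option autoImplicit false

namespace Pool.Agent.Results.MP_31dc4f_pr.DiagonalLimit

open Filter Topology Matrix MeasureTheory ProbabilityTheory Polynomial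

universe u

/-- The space of complex `N × N` matrices carries its Borel sigma-algebra. -/
noncomputable local instance (N : ℕ) : MeasurableSpace (Matrix (Fin N) (Fin N) ℂ) := borel _

/-- `S 0, S 1, …` are independent Haar distributed random unitary `N × N` matrices on the
probability space `(Ω, Pr)`: they are measurable, take values in the unitary group, are independent,
and the law of each of them is invariant under `s ↦ U s V` for all unitary `U`, `V`. -/
structure IndependentHaar {N : ℕ} {Ω : Type u} [MeasurableSpace Ω] (Pr : Measure Ω)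
    (S : ℕ → Ω → Matrix (Fin N) (Fin N) ℂ) : Prop where
  isProbability : IsProbabilityMeasure Pr
  measurable : ∀ i, Measurable (S i)
  unitary : ∀ i ω, S i ω ∈ unitaryGroup (Fin N) ℂ
  independent : iIndepFun S Pr
  haar : ∀ i, ∀ U ∈ unitaryGroup (Fin N) ℂ, ∀ V ∈ unitaryGroup (Fin N) ℂ,
    Pr.map (fun ω => U * S i ω * V) = Pr.map (S i)

/-- `P` is an orthogonal projection of rank `N - 1`. -/
def IsCorankOneProjection {N : ℕ} (P : Matrix (Fin N) (Fin N) ℂ) : Prop :=
  P * P = P ∧ Pᴴ = P ∧ P.rank = N - 1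

/-- `B_L = (P S_L) (P S_{L-1}) ⋯ (P S_1)`; here `s i` stands for `S_{i+1}`. -/
noncomputable def B {N : ℕ} (P : Matrix (Fin N) (Fin N) ℂ) (s : ℕ → Matrix (Fin N) (Fin N) ℂ) :
    ℕ → Matrix (Fin N) (Fin N) ℂ
  | 0 => 1
  | L + 1 => (P * s L) * B P s L

/-- The eigenvalues `T_1, …, T_N` of `Bᴴ B`. -/
noncomputable def T {N : ℕ} (B : Matrix (Fin N) (Fin N) ℂ) : Fin N → ℝ :=
  (isHermitian_conjTranspose_mul_self B).eigenvalues

/-- The numbers `m_p(τ)`. -/
noncomputable def moment (τ : ℝ) (p : ℕ) : ℝ :=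
  Real.exp (-(p * τ)) * ∑ k ∈ Finset.range p, (1 - (k : ℝ) / p) * ((p : ℝ) * τ) ^ k / (k.factorial : ℝ)

/-- `ν` is a probability measure on `[0, 1]` with moments `m_p(τ)`, `p ≥ 1`. -/
def IsLimitLaw (τ : ℝ) (ν : Measure ℝ) : Prop :=
  IsProbabilityMeasure ν ∧ ν (Set.Icc 0 1)ᶜ = 0 ∧ ∀ p : ℕ, 1 ≤ p → ∫ x, x ^ p ∂ν = moment τ p

theorem limitLaw_unique {τ : ℝ} {ν ν' : Measure ℝ} (h : IsLimitLaw τ ν) (h' : IsLimitLaw τ ν') : ν = ν' := by
  obtain ⟨h1, h2, h3⟩ := h
  obtain ⟨h1', h2', h3'⟩ := h'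
  refine ext_of_forall_integral_eq_of_IsFiniteMeasure fun f => ?_
  have key : ∀ δ : ℝ, 0 < δ → |∫ x, f x ∂ν - ∫ x, f x ∂ν'| ≤ 2 * δ := by
    intro δ hδ
    obtain ⟨q, hq⟩ := exists_polynomial_near_of_continuousOn 0 1 f f.continuous.continuousOn δ hδ
    have aux : ∀ κ : Measure ℝ, IsProbabilityMeasure κ → κ (Set.Icc 0 1)ᶜ = 0 →
        (∀ p : ℕ, 1 ≤ p → ∫ x, x ^ p ∂κ = moment τ p) →
        |∫ x, f x ∂κ - (q.coeff 0 + ∑ p ∈ Finset.range q.natDegree, q.coeff (p + 1) * moment τ (p + 1))| ≤ δ := by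
      intro κ hκ hκ0 hm
      have hae : ∀ᵐ x ∂κ, x ∈ Set.Icc (0 : ℝ) 1 := by
        rw [ae_iff]
        exact hκ0
      have hpi : ∀ p : ℕ, Integrable (fun x : ℝ => x ^ p) κ := fun p => Integrable.of_bound (by fun_prop) 1 (by
        filter_upwards [hae] with x hx
        rw [Real.norm_eq_abs, abs_of_nonneg (pow_nonneg hx.1 p)]
        exact pow_le_one₀ hx.1 hx.2)
      have hqi : Integrable (fun x => q.eval x) κ := by
        simp only [eval_eq_sum_range]
        exact integrable_finsetSum _ fun p _ => (hpi p).const_mul _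
      have e1 : ∫ x, q.eval x ∂κ = q.coeff 0 + ∑ p ∈ Finset.range q.natDegree, q.coeff (p + 1) *
          moment τ (p + 1) := by
        simp only [eval_eq_sum_range]
        rw [integral_finsetSum _ fun p _ => (hpi p).const_mul _, Finset.sum_range_succ']
        simp only [pow_zero, integral_const_mul, mul_one, integral_const, probReal_univ, smul_eq_mul]
        rw [one_mul, add_comm]
        congr 1
        exact Finset.sum_congr rfl fun p _ => by rw [hm (p + 1) (by omega)]
      rw [← e1, ← integral_sub (f.integrable κ) hqi]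
      have h21 : ‖∫ x, (f x - q.eval x) ∂κ‖ ≤ δ * κ.real Set.univ := norm_integral_le_of_norm_le_const (by
        filter_upwards [hae] with x hx
        rw [Real.norm_eq_abs, abs_sub_comm]
        exact (hq x hx).le)
      rwa [probReal_univ, mul_one, Real.norm_eq_abs] at h21
    have a1 := aux ν h1 h2 h3
    have a2 := aux ν' h1' h2' h3'
    rw [abs_le] at a1 a2 ⊢
    constructor <;> linarith
  have h0 : |∫ x, f x ∂ν - ∫ x, f x ∂ν'| ≤ 0 := by
    refine le_of_forall_pos_le_add fun ε hε => ?_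
    have := key (ε / 2) (by positivity)
    linarith
  have := abs_nonpos_iff.1 h0
  linarith

/-- **The diagonal limit.** For every `τ > 0` there is exactly one probability measure `ν` on
`[0, 1]` with the moments `m_p(τ)`, and for this measure: if `L_N / N → τ`, then for all independent
Haar unitaries, all projections of rank `N - 1`, all functions `f` continuous on `[0, 1]` and all
`ε > 0`, the probability of `|(1 / N) ∑ f(T_k) - ∫ f dν| > ε` tends to `0`. -/
theorem result :
    ∀ τ : ℝ, 0 < τ → (∃! ν : Measure ℝ, IsLimitLaw τ ν) ∧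
      ∀ ν : Measure ℝ, IsLimitLaw τ ν →
      ∀ L : ℕ → ℕ, Tendsto (fun N => (L N : ℝ) / N) atTop (𝓝 τ) →
      ∀ (Ω : ℕ → Type u) (_ : ∀ N, MeasurableSpace (Ω N)) (Pr : ∀ N, Measure (Ω N))
        (S : ∀ N, ℕ → Ω N → Matrix (Fin N) (Fin N) ℂ), (∀ N, 2 ≤ N → IndependentHaar (Pr N) (S N)) →
      ∀ P : ∀ N, Matrix (Fin N) (Fin N) ℂ, (∀ N, 2 ≤ N → IsCorankOneProjection (P N)) →
      ∀ f : ℝ → ℝ, ContinuousOn f (Set.Icc 0 1) → ∀ ε : ℝ, 0 < ε →
        Tendsto (fun N => Pr N {ω | ε < |(∑ k, f (T (B (P N) (fun i => S N i ω) (L N)) k)) / N - ∫ x, f x ∂ν|})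
          atTop (𝓝 0) := by
  intro τ hτ
  refine ⟨?_, ?_⟩
  · obtain ⟨ν, h1, h2, h3⟩ := Q257.PH.exists_mu τ hτ.le
    have h4 : IsLimitLaw τ ν := by
      refine ⟨h1, h2, fun p hp => ?_⟩
      obtain ⟨r, rfl⟩ : ∃ r, p = r + 1 := ⟨p - 1, by omega⟩
      exact h3 r
    exact ⟨ν, h4, fun κ hκ => limitLaw_unique hκ h4⟩
  · intro ν hν L hL Ω mΩ Pr S hS P hP f hf ε hε
    have := hν.1
    have h1 := Q257.PH.final τ hτ ν hν.2.1 hν.2.2 L hL Ω Pr S
      (fun N hN => ⟨(hS N hN).1, (hS N hN).2, (hS N hN).3, (hS N hN).4, (hS N hN).5⟩) P hP f hf ε hε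
    have hB : ∀ (N : ℕ) (Q : Matrix (Fin N) (Fin N) ℂ) (s : ℕ → Matrix (Fin N) (Fin N) ℂ) (l : ℕ),
        Q257.PH.Bp Q s l = B Q s l := by
      intro N Q s l
      induction l with
      | zero => rfl
      | succ l ih => rw [Q257.PH.Bp, B, ih]
    simp only [hB] at h1
    exact h1

end Pool.Agent.Results.MP_31dc4f_pr.DiagonalLimit
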